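import Pool.Agent.H51BS.Arith

/-!
# Finite generation in negative weights over finite fields and rational function fields
-/

set_option autoImplicit false

namespace Pool.Agent.Results.MP_e93a6a_ag.LawInCharacteristicP

open Pool.Agent.H51BS

/-- For all primes `p`, `n < 0` and `d ≥ 0` the following are equivalent:

1. `Hⁱ(X_et, ℤᶜ(n))` is finitely generated for all `i` and all `X` separated, of finite type and of
   dimension at most `d` over `𝔽_p`;
2. all these groups are finite;
3. `Hʲ(𝔽_p(t₁, …, t_{d+1}), ℚ(d+1-n))` is finite dimensional for all `j`;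
4. `Hʲ(𝔽_p(t₁, …, t_{d+1}), ℚ(d+1-n)) = 0` for all `j`;
5. `Hʲ(E, ℚ(d-n)) = 0` for all `j` and all fields `E` of transcendence degree at most `d` over
   `𝔽_p`. -/
theorem result (M : CycleTheory) (p : ℕ) [Fact p.Prime] (n : ℤ) (d : ℕ) (hn : n < 0) :
    [AllFG M p n d, AllFinite M p n d, RationalFinite M p n d, RationalZero M p n d,
      FieldsZero M p n d].TFAE :=
  main_arith M p n d hn

end Pool.Agent.Results.MP_e93a6a_ag.LawInCharacteristicP
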