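import Pool.Agent.Q27.TW.Main

/-!
# Finite generation in negative weights and linear sections of `GL_s`

For a square matrix `M` whose entries are `0`, `1` or one of the variables `x_1, …, x_N` let `U_M` be
the open subscheme `det M ≠ 0` of the affine space of dimension `N` over `ℤ`; it is the intersection of
`GL_s` with an affine space of matrices. We show for each weight `n < 0` and each `d` that the groups
`H^i(X_et, ℤ^c(n))` are finitely generated for all arithmetic schemes `X` with fibres of dimension at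
most `d` over `ℤ` if and only if they are for the schemes `U_M` of relative dimension `d + 1`, and that
the conjecture (all weights `n < 0`, all `X`) is equivalent to the weight `-1` of the schemes `U_M`.
-/

set_option autoImplicit false

namespace Pool.Agent.Results.MP_e93a6a_ag.LinearSectionsOfGL

open MvPolynomial CategoryTheory AlgebraicGeometry
open Pool.Agent.Y116.UV Q54.CU Q54.ZE Pool.Agent.Q27.TW

/-- A long exact sequence `… → A i → B i → C i → A (i+1) → …`. -/
def Long (A B C : ℤ → ModuleCat.{0} ℤ) : Prop :=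
  ∃ (f : ∀ i, A i →ₗ[ℤ] B i) (g : ∀ i, B i →ₗ[ℤ] C i) (d : ∀ i, C i →ₗ[ℤ] A (i + 1)),
    ∀ i, Function.Exact (f i) (g i) ∧ Function.Exact (g i) (d i) ∧ Function.Exact (d i) (f (i + 1))

/-- The known properties of the groups `H n i X = H^i(X_et, ℤ^c(n))` for `n < 0`:

* `iso`: invariance under isomorphisms;
* `localization`: the long exact localization sequences;
* `affine`: `H^i(𝔸^m_X, ℤ^c(n)) = H^(i + 2 m)(X, ℤ^c(n - m))` for affine `X`;
* `integers`, `prime`: finite generation for `Spec ℤ` and `Spec 𝔽_p`. -/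
structure IsCycleTheory (H : ℤ → ℤ → Sch ℤ → ModuleCat.{0} ℤ) : Prop where
  iso : ∀ {X Y : Sch ℤ}, FT True X → Nonempty (X ≅ Y) →
    ∀ n < 0, ∀ i, Nonempty (H n i X ≃ₗ[ℤ] H n i Y)
  localization : ∀ {Z X U : Sch ℤ} (f : Z ⟶ X) (g : U ⟶ X), FT True X → IsTriple f g →
    ∀ n < 0, Long (fun i => H n i Z) (fun i => H n i X) fun i => H n i U
  affine : ∀ (A : Type) [CommRing A] [Algebra ℤ A] [Algebra.FiniteType ℤ A] (m : ℕ),
    ∀ n < 0, ∀ i, Nonempty (H n i (aff ℤ (MvPolynomial (Fin m) A)) ≃ₗ[ℤ]
      H (n - m) (i + 2 * m) (aff ℤ A))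
  integers : ∀ n < 0, ∀ i, Module.Finite ℤ (H n i (aff ℤ ℤ))
  prime : ∀ (p : ℕ) [Fact p.Prime], ∀ n < 0, ∀ i, Module.Finite ℤ (H n i (aff ℤ (ZMod p)))

/-- The groups of `X` in the weight `n` are finitely generated. -/
def FG (H : ℤ → ℤ → Sch ℤ → ModuleCat.{0} ℤ) (n : ℤ) (X : Sch ℤ) : Prop :=
  ∀ i, Module.Finite ℤ (H n i X)

/-- `P` is true for all arithmetic schemes with fibres of dimension at most `d`. -/
def AllFib (P : Sch ℤ → Prop) (d : ℕ) : Prop :=
  ∀ X : Sch ℤ, FT True X → FibLE d (X := X.left) X.hom → P X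

/-- `P` is true for all flat integral arithmetic schemes of dimension at most `D`. -/
def FlatDim (P : Sch ℤ → Prop) (D : ℕ) : Prop :=
  ∀ X : Sch ℤ, FT True X → IsIntegral X.left → Flat X.hom → topologicalKrullDim X.left ≤ D → P X

lemma finite_of_exact {R : Type} [CommRing R] [IsNoetherianRing R] {M N P : Type}
    [AddCommGroup M] [Module R M] [AddCommGroup N] [Module R N] [AddCommGroup P] [Module R P]
    {f : M →ₗ[R] N} {g : N →ₗ[R] P} (h : Function.Exact f g) (hM : Module.Finite R M)
    (hP : Module.Finite R P) : Module.Finite R N := by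
  have h1 : LinearMap.ker g = LinearMap.range f := LinearMap.exact_iff.1 h
  have h2 : Module.Finite R (LinearMap.ker g) := by
    rw [h1]
    infer_instance
  have h3 : Module.Finite R (N ⧸ LinearMap.ker g) :=
    Module.Finite.equiv (LinearMap.quotKerEquivRange g).symm
  exact Module.Finite.of_submodule_quotient (LinearMap.ker g)

section

variable {H : ℤ → ℤ → Sch ℤ → ModuleCat.{0} ℤ} (hH : IsCycleTheory H)

include hH

/-- Finite generation in the weight `n` is closed under closed-open decompositions. -/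
lemma two_fg (n : ℤ) (hn : n < 0) : TwoZ True (FG H n) where
  iso hX e h i := by
    obtain ⟨e'⟩ := hH.iso hX e n hn i
    have := h i
    exact Module.Finite.equiv e'
  total f g hX ht hZ hU i := by
    obtain ⟨a, b, c, h⟩ := hH.localization f g hX ht n hn
    exact finite_of_exact (h i).1 (hZ i) (hU i)
  opened f g hX ht hZ hX' i := by
    obtain ⟨a, b, c, h⟩ := hH.localization f g hX ht n hn
    exact finite_of_exact (h i).2.1 (hX' i) (hZ (i + 1))
  closed f g hX ht hX' hU i := by
    obtain ⟨a, b, c, h⟩ := hH.localization f g hX ht n hn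
    obtain ⟨i, rfl⟩ : ∃ l : ℤ, i = l + 1 := ⟨i - 1, by ring⟩
    exact finite_of_exact (h i).2.2 (hU i) (hX' (i + 1))
  space m i := by
    obtain ⟨e⟩ := hH.affine ℤ m n hn i
    have := hH.integers (n - m) (by omega) (i + 2 * m)
    exact Module.Finite.equiv e.symm
  spaceP p _ m i := by
    have : Algebra.FiniteType ℤ (ZMod p) :=
      Algebra.FiniteType.of_surjective (Algebra.ofId ℤ (ZMod p)) (ZMod.intCast_surjective)
    obtain ⟨e⟩ := hH.affine (ZMod p) m n hn i
    have := hH.prime p (n - m) (by omega) (i + 2 * m)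
    exact Module.Finite.equiv e.symm

end

/-- **Finite generation in negative weights and linear sections of `GL_s`.** -/
theorem result (H : ℤ → ℤ → Sch ℤ → ModuleCat.{0} ℤ) (hH : IsCycleTheory H) :
    (∀ n < 0, ∀ d : ℕ, List.TFAE
      [AllFib (FG H n) d, SmoothDom (FG H n) d, Sections (FG H n) (d + 1)]) ∧
    (∀ n < 0, ∀ d : ℕ, Sections (FG H n) (d + 1) → FlatDim (FG H n) (d + 1)) ∧
    ((∀ n < 0, ∀ X : Sch ℤ, FT True X → FG H n X) ↔ ∀ N : ℕ, Sections (FG H (-1)) N) := by
  refine ⟨fun n hn d => sections_main (two_fg hH n hn) d,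
    fun n hn d h X hX hI hf hd => sections_flat (two_fg hH n hn) h X hX hd, fun h N => ?_,
    fun h n hn X hX => ?_⟩
  · intro s M _
    exact h (-1) (by norm_num) _ (ft_aff True)
  · have h1 : ∀ X : Sch ℤ, FT True X → FG H (-1) X := fun X hX =>
      sections_all (two_fg hH (-1) (by norm_num)).toTwo h X hX
    have hP := (two_fg hH n hn).toTwo
    refine of_affine' (fun hX e h => hP.iso hX e h)
      (fun i j hX ht h1 h2 => hP.total i j hX ht h1 h2) (fun A _ _ _ => ?_) X hX
    obtain ⟨m, rfl⟩ : ∃ m : ℕ, n = -1 - m := ⟨(-1 - n).toNat, by omega⟩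
    have : Algebra.FiniteType ℤ (MvPolynomial (Fin m) A) :=
      Algebra.FiniteType.trans (S := A) inferInstance inferInstance
    intro i
    obtain ⟨e⟩ := hH.affine A m (-1) (by norm_num) (i - 2 * m)
    rw [sub_add_cancel] at e
    have := h1 (aff ℤ (MvPolynomial (Fin m) A)) (ft_aff True) (i - 2 * m)
    exact Module.Finite.equiv e

end Pool.Agent.Results.MP_e93a6a_ag.LinearSectionsOfGL
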