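import Pool.Agent.Q187.EM.MainN

/-!
Finite generation of `H^i(X_et, Z^c(n))` for all arithmetic schemes, all `n < 0` and all
`i` is equivalent to finite generation for `n = -1` and `i ≤ 3` for one regular proper
model of one finite separable extension of each function field.
-/

namespace Pool.Agent.Results.MP_e93a6a_ag.OneModelPerFunctionField

open Pool.Agent.Q187.EM

universe u

/-- Q1 (`AllFG`) is equivalent to its case `n = -1`, `i ≤ 3`, for one regular proper
scheme `V` for each integral arithmetic scheme `U`. -/
theorem result (T : Arith.{u}) (hT : IsArith T) :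
    AllFG T ↔ ∀ U, T.Integral U → ∃ V, Alteration T U V ∧
      ∀ i ≤ 3, AddGroup.FG (T.H V (-1) i) :=
  allFG_iff hT

end Pool.Agent.Results.MP_e93a6a_ag.OneModelPerFunctionField
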