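import Pool.Agent.Q18.HJ.ArMain

/-!
# Finite generation in negative weights for arithmetic schemes built from sums of forms

Over the algebraic closure of a finite field of characteristic `p` we consider the smooth hypersurfaces,
of ARBITRARY dimension and of degree `d` prime to `p`,

  `W : f_1(x_1, y_1) + f_2(x_2, y_2) + ⋯ + f_r(x_r, y_r) = 0`,

`f_j` binary forms of degree `d ≥ 2`, or, for `d = 3`, cubic forms in at most three variables; one more
term `u_j^d` is allowed for every `j`. We prove that the groups `H^i(X_et, ℤ^c(n))`, `n < 0`, `i ∈ ℤ`,
are finitely generated for all arithmetic schemes `X` in the smallest class which contains `∅`, the
spectra of the rings of integers of number fields and the smooth projective varieties over finite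
fields, of any characteristics, whose Chow motive over the algebraic closure is obtained by tensor
products, sums, summands and negative Tate twists from the motives of curves and of such `W`, and which
is closed under the operations of Morin's class `𝓛(ℤ)`: two out of three for a closed subscheme and its
complement, disjoint unions and their parts, affine bundles, finite étale coverings.

For instance `X` may be any form of such a `W` over a finite field, or a product of such ones and of
curves, and `X` may be an affine hypersurface `f_1 + ⋯ + f_r = c` over a finite field (the complement
of `f_1 + ⋯ + f_r = 0` in `f_1 + ⋯ + f_r = c u^d`), or its closed complements in an arithmetic scheme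
of the class.
-/

open CategoryTheory MonoidalCategory

universe v u w

namespace Pool.Agent.Results.MP_e93a6a_ag.SchemesFromSumsOfForms

open Pool.Agent.Q18.HJ

/-- **Finite generation for arithmetic schemes built from sums of forms.** Let `T` be the Chow motives
over the algebraic closures of the finite prime fields, with the smooth hypersurfaces, and the
arithmetic schemes (`hT`: known facts). Let `X` be an arithmetic scheme in the class `Built`: the
smallest class which contains the empty scheme, the spectra of rings of integers of number fields and
all schemes smooth and projective over a finite field with motive of type `CurveType` (obtained by
tensor products, direct sums, direct summands and negative Tate twists from the motives of curves and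
of smooth hypersurfaces `W`, of any dimension, which are sums, in disjoint sets of variables, of binary
forms of one degree or of cubic forms in at most three variables), and which is closed under two out
of three, disjoint unions and their parts, affine bundles and finite étale coverings. Then
`H^i(X_et, ℤ^c(n))` is finitely generated for all `n < 0` and all `i`. -/
theorem result {𝓜 : ℕ → Type u} [∀ p, Category.{v} (𝓜 p)] [∀ p, Preadditive (𝓜 p)]
    [∀ p, MonoidalCategory (𝓜 p)] {T : ArData.{v, u, w} 𝓜} (hT : T.Facts) {X : T.Sch}
    (hX : T.Built X) : T.FG X :=
  ArData.final hT hX

end Pool.Agent.Results.MP_e93a6a_ag.SchemesFromSumsOfForms
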